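import Pool.Agent.Zk41.SM.C

/-!
Smooth choices of residue classes: from a profile `ψ` on `[1, 2]` to the data `Dat`.
-/

set_option autoImplicit false

open Finset

namespace Pool.Agent.Zk41.SM

lemma lin_of {P c : ℝ} (hP : 0 < P) (hc : 0 ≤ c) {ψ ψ' : ℝ → ℝ}
    (hd : ∀ t ∈ Set.Icc (1 : ℝ) 2, HasDerivWithinAt ψ (ψ' t) (Set.Icc 1 2) t)
    (hl : ∀ s ∈ Set.Icc (1 : ℝ) 2, ∀ t ∈ Set.Icc (1 : ℝ) 2, |ψ' s - ψ' t| ≤ c * |s - t|) :
    ∀ r ∈ Set.Icc P (2 * P), ∀ s ∈ Set.Icc P (2 * P), ∀ t ∈ Set.Icc P (2 * P),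
      |P * ψ (s / P) - P * ψ (t / P) - ψ' (r / P) * (s - t)| ≤
        (c / P) * (|s - t| + |r - t|) * |s - t| := by
  have hin : ∀ x ∈ Set.Icc P (2 * P), x / P ∈ Set.Icc (1 : ℝ) 2 := by
    intro x hx
    constructor
    · rw [one_le_div hP]; exact hx.1
    · rw [div_le_iff₀ hP]; exact hx.2
  intro r hr s hs t ht
  have hr' := hin r hr
  have hs' := hin s hs
  have ht' := hin t ht
  have hsub : Set.uIcc (t / P) (s / P) ⊆ Set.Icc (1 : ℝ) 2 :=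
    Set.uIcc_subset_Icc ht' hs'
  have h1 := Convex.norm_image_sub_le_of_norm_hasDerivWithin_le
    (f := fun x => ψ x - ψ' (r / P) * x) (f' := fun x => ψ' x - ψ' (r / P) * 1)
    (s := Set.uIcc (t / P) (s / P)) (x := t / P) (y := s / P)
    (C := c * (|s / P - t / P| + |r / P - t / P|))
    (fun x hx => ((hd x (hsub hx)).mono hsub).sub ((hasDerivWithinAt_id x _).const_mul _))
    (by
      intro x hx
      rw [Real.norm_eq_abs, mul_one]
      refine (hl x (hsub hx) (r / P) hr').trans ?_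
      apply mul_le_mul_of_nonneg_left _ hc
      have h2 : |x - t / P| ≤ |s / P - t / P| := Set.abs_sub_left_of_mem_uIcc hx
      calc |x - r / P| = |(x - t / P) - (r / P - t / P)| := by ring_nf
        _ ≤ |x - t / P| + |r / P - t / P| := abs_sub _ _
        _ ≤ _ := by linarith)
    (convex_uIcc _ _) Set.left_mem_uIcc Set.right_mem_uIcc
  simp only [Real.norm_eq_abs] at h1
  have e1 : P * ψ (s / P) - P * ψ (t / P) - ψ' (r / P) * (s - t) =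
      P * (ψ (s / P) - ψ' (r / P) * (s / P) - (ψ (t / P) - ψ' (r / P) * (t / P))) := by
    field_simp
    ring
  rw [e1, abs_mul, abs_of_pos hP]
  have e2 : |s / P - t / P| = |s - t| / P := by
    rw [← sub_div, abs_div, abs_of_pos hP]
  have e3 : |r / P - t / P| = |r - t| / P := by
    rw [← sub_div, abs_div, abs_of_pos hP]
  rw [e2, e3] at h1
  calc P * |ψ (s / P) - ψ' (r / P) * (s / P) - (ψ (t / P) - ψ' (r / P) * (t / P))|
      ≤ P * (c * (|s - t| / P + |r - t| / P) * (|s - t| / P)) := by gcongr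
    _ = _ := by field_simp

lemma lip_of {P c : ℝ} (hP : 0 < P) {ψ ψ' : ℝ → ℝ}
    (hd : ∀ t ∈ Set.Icc (1 : ℝ) 2, HasDerivWithinAt ψ (ψ' t) (Set.Icc 1 2) t)
    (hl : ∀ s ∈ Set.Icc (1 : ℝ) 2, |ψ' s| ≤ c) :
    ∀ s ∈ Set.Icc P (2 * P), ∀ t ∈ Set.Icc P (2 * P),
      |P * ψ (s / P) - P * ψ (t / P)| ≤ c * |s - t| := by
  have hin : ∀ x ∈ Set.Icc P (2 * P), x / P ∈ Set.Icc (1 : ℝ) 2 := by
    intro x hx
    constructor
    · rw [one_le_div hP]; exact hx.1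
    · rw [div_le_iff₀ hP]; exact hx.2
  intro s hs t ht
  have hs' := hin s hs
  have ht' := hin t ht
  have h1 := Convex.norm_image_sub_le_of_norm_hasDerivWithin_le
    (f := ψ) (f' := ψ') (s := Set.Icc (1 : ℝ) 2) (x := t / P) (y := s / P) (C := c)
    hd (fun x hx => by rw [Real.norm_eq_abs]; exact hl x hx) (convex_Icc _ _) ht' hs'
  simp only [Real.norm_eq_abs] at h1
  rw [← mul_sub, abs_mul, abs_of_pos hP]
  have e2 : |s / P - t / P| = |s - t| / P := by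
    rw [← sub_div, abs_div, abs_of_pos hP]
  rw [e2] at h1
  calc P * |ψ (s / P) - ψ (t / P)| ≤ P * (c * (|s - t| / P)) := by gcongr
    _ = _ := by field_simp

/-- the data of a profile -/
theorem dat_of {P x κ : ℝ} {K : ℕ} {Q : Finset ℕ} {b : ℕ → ℤ} {ψ ψ' : ℝ → ℝ} (hx : 1 ≤ x)
    (hκ0 : 0 ≤ κ) (hκ1 : κ ≤ 1) (hK : 100 * x ≤ K) (hKP : (K : ℝ) ≤ P)
    (hκ : κ * (K : ℝ) ^ 2 ≤ P) (hQ : ∀ p ∈ Q, P ≤ (p : ℝ) ∧ (p : ℝ) ≤ 2 * P)
    (hd : ∀ t ∈ Set.Icc (1 : ℝ) 2, HasDerivWithinAt ψ (ψ' t) (Set.Icc 1 2) t)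
    (hl : ∀ s ∈ Set.Icc (1 : ℝ) 2, |ψ' s| ≤ x)
    (hl2 : ∀ s ∈ Set.Icc (1 : ℝ) 2, ∀ t ∈ Set.Icc (1 : ℝ) 2, |ψ' s - ψ' t| ≤ x * κ * |s - t|)
    (hb : ∀ p ∈ Q, |(b p : ℝ) - P * ψ (p / P)| ≤ x) :
    Dat P x (x * κ / P) K Q b (fun t => P * ψ (t / P)) (fun t => ψ' (t / P)) := by
  have hP : 0 < P := by linarith
  have hx0 : 0 ≤ x := by linarith
  refine ⟨hx, hK, hKP, by positivity, ?_, ?_, hQ, lip_of hP hd hl,
    lin_of hP (by positivity) hd hl2, hb⟩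
  · calc x * κ / P * (K : ℝ) ^ 2 = x * (κ * (K : ℝ) ^ 2) / P := by ring
      _ ≤ x * P / P := by gcongr
      _ = x := by field_simp
  · calc x * κ / P * P = x * κ := by field_simp
      _ ≤ x * 1 := by gcongr
      _ = x := mul_one x

end Pool.Agent.Zk41.SM
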